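import Mathlib
import Pool.Agent.Hhelper49.Core9.Defs
import Pool.Agent.Hhelper49.Core9.Trans
import Pool.Agent.Hhelper49.Core9.Mitre

set_option autoImplicit false
set_option linter.unusedSectionVars false

/-!
Pasch configurations in a Steiner triple system without a nine-point 2-core: local part.

The medial map `o (a, b, c) = (bc, ca, ab)`.  A non-collinear triple of points of a Pasch
configuration is not in its image, unless there is a nine-point 2-core.
-/

namespace Pool.Agent.Hhelper66.Fan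

open Finset Pool.Agent.Hhelper49.Core9

variable {V : Type*} [DecidableEq V] {m : V → V → V}

/-- A Pasch configuration in terms of the quasigroup: lines `x y z`, `x y' z'`, `x' y z'`,
`x' y' z`. -/
structure PQ (m : V → V → V) (x x' y y' z z' : V) : Prop where
  nd : [x, x', y, y', z, z'].Nodup
  l1 : m x y = z
  l2 : m x y' = z'
  l3 : m x' y = z'
  l4 : m x' y' = z

/-- A Pasch configuration and a triangle outside with its three sides through the Pasch
configuration form a nine-point 2-core. -/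
theorem core_of_tri {B : Finset (Finset V)} (hm : OpOf B m) {x x' y y' z z' u1 u2 u3 : V}
    (hq : PQ m x x' y y' z z') (h12 : u1 ≠ u2) (h23 : u2 ≠ u3) (h31 : u3 ≠ u1)
    (k1 : u1 ∉ ({x, x', y, y', z, z'} : Finset V)) (k2 : u2 ∉ ({x, x', y, y', z, z'} : Finset V))
    (k3 : u3 ∉ ({x, x', y, y', z, z'} : Finset V))
    (w1 : m u2 u3 ∈ ({x, x', y, y', z, z'} : Finset V))
    (w2 : m u3 u1 ∈ ({x, x', y, y', z, z'} : Finset V))
    (w3 : m u1 u2 ∈ ({x, x', y, y', z, z'} : Finset V)) : ∃ S, NineCore B S := by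
  obtain ⟨nd, l1, l2, l3, l4⟩ := hq
  simp only [List.nodup_cons, List.mem_cons, List.not_mem_nil, or_false, not_or,
    List.nodup_nil, not_false_eq_true, and_true] at nd
  obtain ⟨⟨a1, a2, a3, a4, a5⟩, ⟨b1, b2, b3, b4⟩, ⟨c1, c2, c3⟩, ⟨d1, d2⟩, e1⟩ := nd
  set Q : Finset V := {x, x', y, y', z, z'} with hQ
  set S : Finset V := {x, x', y, y', z, z', u1, u2, u3} with hS
  have hQS : Q ⊆ S := by
    intro t ht
    simp only [hQ, Finset.mem_insert, Finset.mem_singleton] at ht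
    simp only [hS, Finset.mem_insert, Finset.mem_singleton]
    tauto
  have b1' : ({x, y, z} : Finset V) ∈ B := by
    have := (hm.mem x y a2).2.2; rwa [l1] at this
  have b2' : ({x, y', z'} : Finset V) ∈ B := by
    have := (hm.mem x y' a3).2.2; rwa [l2] at this
  have b3' : ({x', y, z'} : Finset V) ∈ B := by
    have := (hm.mem x' y b1).2.2; rwa [l3] at this
  have b4' : ({x', y', z} : Finset V) ∈ B := by
    have := (hm.mem x' y' b2).2.2; rwa [l4] at this
  have f1 : ({u2, u3, m u2 u3} : Finset V) ∈ B := (hm.mem u2 u3 h23).2.2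
  have f2 : ({u3, u1, m u3 u1} : Finset V) ∈ B := (hm.mem u3 u1 h31).2.2
  have f3 : ({u1, u2, m u1 u2} : Finset V) ∈ B := (hm.mem u1 u2 h12).2.2
  have hsub : ∀ {a b c : V}, a ∈ S → b ∈ S → c ∈ S → ({a, b, c} : Finset V) ⊆ S := by
    intro a b c ha hb hc t ht
    simp only [Finset.mem_insert, Finset.mem_singleton] at ht
    rcases ht with rfl | rfl | rfl <;> assumption
  have mx : x ∈ S := by simp [hS]
  have mx' : x' ∈ S := by simp [hS]
  have my : y ∈ S := by simp [hS]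
  have my' : y' ∈ S := by simp [hS]
  have mz : z ∈ S := by simp [hS]
  have mz' : z' ∈ S := by simp [hS]
  have mu1 : u1 ∈ S := by simp [hS]
  have mu2 : u2 ∈ S := by simp [hS]
  have mu3 : u3 ∈ S := by simp [hS]
  have hne : ∀ {b c : Finset V} (t : V), t ∈ b → t ∉ c → b ≠ c := by
    intro b c t hb hc e; rw [e] at hb; exact hc hb
  have n1 : u1 ≠ m u2 u3 := fun e => k1 (e ▸ w1)
  have n2 : u2 ≠ m u3 u1 := fun e => k2 (e ▸ w2)
  have n3 : u3 ≠ m u1 u2 := fun e => k3 (e ▸ w3)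
  refine ⟨S, ?_, ?_⟩
  · have k1' := k1
    have k2' := k2
    have k3' := k3
    simp only [hQ, Finset.mem_insert, Finset.mem_singleton, not_or] at k1' k2' k3'
    obtain ⟨p1, p2, p3, p4, p5, p6⟩ := k1'
    obtain ⟨q1, q2, q3, q4, q5, q6⟩ := k2'
    obtain ⟨r1, r2, r3, r4, r5, r6⟩ := k3'
    have hnd : [x, x', y, y', z, z', u1, u2, u3].Nodup := by
      simp only [List.nodup_cons, List.mem_cons, List.not_mem_nil, or_false, not_or,
        List.nodup_nil, not_false_eq_true, and_true]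
      exact ⟨⟨a1, a2, a3, a4, a5, Ne.symm p1, Ne.symm q1, Ne.symm r1⟩,
        ⟨b1, b2, b3, b4, Ne.symm p2, Ne.symm q2, Ne.symm r2⟩,
        ⟨c1, c2, c3, Ne.symm p3, Ne.symm q3, Ne.symm r3⟩,
        ⟨d1, d2, Ne.symm p4, Ne.symm q4, Ne.symm r4⟩,
        ⟨e1, Ne.symm p5, Ne.symm q5, Ne.symm r5⟩,
        ⟨Ne.symm p6, Ne.symm q6, Ne.symm r6⟩, ⟨h12, Ne.symm h31⟩, h23⟩
    have e : S = [x, x', y, y', z, z', u1, u2, u3].toFinset := by
      ext t; simp [hS]
    rw [e, List.toFinset_card_of_nodup hnd]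
    rfl
  · intro v hv
    simp only [hS, Finset.mem_insert, Finset.mem_singleton] at hv
    rcases hv with rfl | rfl | rfl | rfl | rfl | rfl | rfl | rfl | rfl
    · refine two_le b1' b2' (hsub mx my mz) (hsub mx my' mz') (by simp) (by simp) (hne y (by simp) ?_)
      simp only [Finset.mem_insert, Finset.mem_singleton, not_or]
      exact ⟨Ne.symm a2, c1, c3⟩
    · refine two_le b3' b4' (hsub mx' my mz') (hsub mx' my' mz) (by simp) (by simp)
        (hne y (by simp) ?_)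
      simp only [Finset.mem_insert, Finset.mem_singleton, not_or]
      exact ⟨Ne.symm b1, c1, c2⟩
    · refine two_le b1' b3' (hsub mx my mz) (hsub mx' my mz') (by simp) (by simp)
        (hne x (by simp) ?_)
      simp only [Finset.mem_insert, Finset.mem_singleton, not_or]
      exact ⟨a1, a2, a5⟩
    · refine two_le b2' b4' (hsub mx my' mz') (hsub mx' my' mz) (by simp) (by simp)
        (hne x (by simp) ?_)
      simp only [Finset.mem_insert, Finset.mem_singleton, not_or]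
      exact ⟨a1, a3, a4⟩
    · refine two_le b1' b4' (hsub mx my mz) (hsub mx' my' mz) (by simp) (by simp)
        (hne x (by simp) ?_)
      simp only [Finset.mem_insert, Finset.mem_singleton, not_or]
      exact ⟨a1, a3, a4⟩
    · refine two_le b2' b3' (hsub mx my' mz') (hsub mx' my mz') (by simp) (by simp)
        (hne x (by simp) ?_)
      simp only [Finset.mem_insert, Finset.mem_singleton, not_or]
      exact ⟨a1, a2, a5⟩
    · refine two_le f2 f3 (hsub mu3 mu1 (hQS w2)) (hsub mu1 mu2 (hQS w3)) (by simp) (by simp)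
        (hne u3 (by simp) ?_)
      simp only [Finset.mem_insert, Finset.mem_singleton, not_or]
      exact ⟨h31, Ne.symm h23, n3⟩
    · refine two_le f3 f1 (hsub mu1 mu2 (hQS w3)) (hsub mu2 mu3 (hQS w1)) (by simp) (by simp)
        (hne u1 (by simp) ?_)
      simp only [Finset.mem_insert, Finset.mem_singleton, not_or]
      exact ⟨h12, Ne.symm h31, n1⟩
    · refine two_le f1 f2 (hsub mu2 mu3 (hQS w1)) (hsub mu3 mu1 (hQS w2)) (by simp) (by simp)
        (hne u2 (by simp) ?_)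
      simp only [Finset.mem_insert, Finset.mem_singleton, not_or]
      exact ⟨h23, Ne.symm h12, n2⟩

/-- `(a, b, c)` is a triangle whose three midpoints are collinear. -/
structure P1 (m : V → V → V) (a b c : V) : Prop where
  ab : a ≠ b
  bc : b ≠ c
  ca : c ≠ a
  nc : m a b ≠ c
  col : m (m b c) (m c a) = m a b

/-- `(x, x', y)` are non-collinear points of a Pasch configuration in which `x`, `x'` are
opposite. -/
structure P2 (m : V → V → V) (x x' y : V) : Prop where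
  xx : x ≠ x'
  xy : x ≠ y
  xy' : x' ≠ y
  nc : m x x' ≠ y
  eq : m x (m x' y) = m x' (m x y)

theorem P1.rot (h : SQ m) {a b c : V} (p : P1 m a b c) : P1 m b c a := by
  refine ⟨p.bc, p.ca, p.ab, ?_, ?_⟩
  · intro e
    apply p.nc
    rw [h.comm, ← e, h.inv]
  · exact h.rot p.col

theorem P2.swap (h : SQ m) {x x' y : V} (p : P2 m x x' y) : P2 m x' x y :=
  ⟨p.xx.symm, p.xy', p.xy, by rw [h.comm]; exact p.nc, p.eq.symm⟩

theorem P1.pq (h : SQ m) {a b c : V} (p : P1 m a b c) :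
    PQ m a (m b c) b (m c a) (m a b) c := by
  have hbc : m b c ≠ a := by
    intro e; apply p.nc; rw [← e, h.comm, h.inv]
  have hca : m c a ≠ b := by
    intro e; apply p.nc; rw [← e, h.comm c a, h.inv]
  refine ⟨?_, rfl, ?_, ?_, ?_⟩
  · simp only [List.nodup_cons, List.mem_cons, List.not_mem_nil, or_false, not_or,
      List.nodup_nil, not_false_eq_true, and_true]
    refine ⟨⟨hbc.symm, p.ab, ?_, ?_, p.ca.symm⟩, ⟨?_, ?_, ?_, ?_⟩, ⟨hca.symm, ?_, p.bc⟩,
      ⟨?_, ?_⟩, p.nc⟩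
    · intro e; exact p.ca (h.eq_right e.symm)
    · intro e; exact p.ab (h.eq_left e.symm)
    · intro e; exact p.bc (h.eq_left e)
    · intro e
      rw [h.comm b c] at e
      exact p.ab (h.cancel e).symm
    · intro e
      rw [h.comm a b] at e
      exact p.ca (h.cancel e)
    · intro e; exact p.bc (h.eq_right e)
    · intro e; exact p.ab (h.eq_right e.symm)
    · intro e
      rw [h.comm c a] at e
      exact p.bc (h.cancel e).symm
    · intro e; exact p.ca (h.eq_left e)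
  · rw [h.comm c a, h.inv]
  · rw [h.inv'']
  · exact p.col

theorem P2.pq (h : SQ m) {x x' y : V} (p : P2 m x x' y) :
    PQ m x x' y (m x (m x' y)) (m x y) (m x' y) := by
  have h1 : m x y ≠ x' := by
    intro e; apply p.nc; rw [← e, h.inv]
  have h2 : m x' y ≠ x := by
    intro e; apply p.nc; rw [← e, h.comm, h.inv]
  have h3 : m x y ≠ m x' y := fun e => p.xx (h.cancel' e)
  refine ⟨?_, rfl, h.inv _ _, rfl, ?_⟩
  · simp only [List.nodup_cons, List.mem_cons, List.not_mem_nil, or_false, not_or,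
      List.nodup_nil, not_false_eq_true, and_true]
    refine ⟨⟨p.xx, p.xy, ?_, ?_, h2.symm⟩, ⟨p.xy', ?_, h1.symm, ?_⟩, ⟨?_, ?_, ?_⟩,
      ⟨?_, ?_⟩, h3⟩
    · intro e; exact h2 (h.eq_left e.symm).symm
    · intro e; exact p.xy (h.eq_left e.symm)
    · intro e; rw [p.eq] at e; exact h1 (h.eq_left e.symm).symm
    · intro e; exact p.xy' (h.eq_left e.symm)
    · intro e; exact h3 (h.swap e.symm)
    · intro e; exact p.xy (h.eq_right e.symm)
    · intro e; exact p.xy' (h.eq_right e.symm)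
    · intro e
      rw [p.eq] at e
      exact h1 (h.eq_right e).symm
    · intro e; exact h2 (h.eq_right e).symm
  · rw [p.eq, h.inv]

/-- a preimage of `(a, b, c)` has no vertex in the Pasch configuration -/
theorem P1.aux (h : SQ m) {a b c : V} (p : P1 m a b c) {u1 u2 u3 : V} (e1 : m u2 u3 = a)
    (e2 : m u3 u1 = b) (e3 : m u1 u2 = c) :
    u1 ≠ a ∧ u1 ≠ m b c ∧ u1 ≠ b ∧ u1 ≠ m c a ∧ u1 ≠ m a b ∧ u1 ≠ c := by
  have hu3 : u3 = m u1 b := by rw [← e2, h.comm u3 u1, h.inv]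
  have hu2 : u2 = m u1 c := by rw [← e3, h.inv]
  obtain ⟨nd, l1, l2, l3, l4⟩ := p.pq h
  simp only [List.nodup_cons, List.mem_cons, List.not_mem_nil, or_false, not_or,
    List.nodup_nil, not_false_eq_true, and_true] at nd
  obtain ⟨⟨a1, a2, a3, a4, a5⟩, ⟨b1, b2, b3, b4⟩, ⟨c1, c2, c3⟩, ⟨d1, d2⟩, f1⟩ := nd
  refine ⟨?_, ?_, ?_, ?_, ?_, ?_⟩
  · rintro rfl
    -- `u3 = ab`, `u2 = ac`
    rw [hu3, hu2, h.comm u1 c] at e1
    have := h.rot l4
    rw [this] at e1
    exact a1 e1.symm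
  · rintro rfl
    rw [h.inv''] at hu3
    rw [h.inv'] at hu2
    rw [hu2, hu3] at e1
    exact a1 e1.symm
  · rintro rfl
    rw [h.idem] at hu3
    rw [hu2, hu3, h.inv''] at e1
    exact a5 e1.symm
  · rintro rfl
    rw [h.inv''] at hu2
    rw [hu2] at e1
    have := h.eq_left e1
    rw [hu3] at this
    -- `a = B b`
    have h2 := h.swap this.symm
    rw [h.inv'] at h2
    exact c3 h2.symm
  · rintro rfl
    rw [h.inv'] at hu3
    rw [hu3] at e1
    have h1 := h.eq_right e1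
    rw [hu2] at h1
    have h2 := h.swap h1
    rw [h.inv''] at h2
    exact c3 h2
  · rintro rfl
    rw [h.idem] at hu2
    rw [hu2, hu3] at e1
    rw [h.comm u1 b, h.comm b u1, h.inv] at e1
    exact a2 e1.symm

theorem P1.not_image {B : Finset (Finset V)} (hm : OpOf B m) (hc : ¬ ∃ S, NineCore B S)
    {a b c : V} (p : P1 m a b c) {u1 u2 u3 : V} (e1 : m u2 u3 = a)
    (e2 : m u3 u1 = b) (e3 : m u1 u2 = c) : False := by
  have h := hm.sq
  apply hc
  obtain ⟨p1, p2, p3, p4, p5, p6⟩ := p.aux h e1 e2 e3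
  obtain ⟨q1, q2, q3, q4, q5, q6⟩ := (p.rot h).aux h e2 e3 e1
  obtain ⟨r1, r2, r3, r4, r5, r6⟩ := ((p.rot h).rot h).aux h e3 e1 e2
  refine core_of_tri hm (p.pq h) (u1 := u1) (u2 := u2) (u3 := u3) ?_ ?_ ?_ ?_ ?_ ?_ ?_ ?_ ?_
  · rintro rfl
    apply p.ab
    rw [← e1, ← e2, h.comm]
  · rintro rfl
    apply p.bc
    rw [← e2, ← e3, h.comm]
  · rintro rfl
    apply p.ca
    rw [← e1, ← e3, h.comm]
  · simp only [Finset.mem_insert, Finset.mem_singleton, not_or]
    exact ⟨p1, p2, p3, p4, p5, p6⟩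
  · simp only [Finset.mem_insert, Finset.mem_singleton, not_or]
    exact ⟨q6, q5, q1, q2, q4, q3⟩
  · simp only [Finset.mem_insert, Finset.mem_singleton, not_or]
    exact ⟨r3, r4, r6, r5, r2, r1⟩
  · rw [e1]; simp
  · rw [e2]; simp
  · rw [e3]; simp

/-- a preimage of `(x, x', y)` : first vertex -/
theorem P2.aux1 (h : SQ m) {x x' y : V} (p : P2 m x x' y) {u1 u2 u3 : V} (e1 : m u2 u3 = x)
    (e2 : m u3 u1 = x') (e3 : m u1 u2 = y) :
    u1 ≠ x ∧ u1 ≠ x' ∧ u1 ≠ y ∧ u1 ≠ m x (m x' y) ∧ u1 ≠ m x y ∧ u1 ≠ m x' y := by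
  have hu3 : u3 = m u1 x' := by rw [← e2, h.comm u3 u1, h.inv]
  have hu2 : u2 = m u1 y := by rw [← e3, h.inv]
  have pe := p.eq
  obtain ⟨nd, l1, l2, l3, l4⟩ := p.pq h
  simp only [List.nodup_cons, List.mem_cons, List.not_mem_nil, or_false, not_or,
    List.nodup_nil, not_false_eq_true, and_true] at nd
  obtain ⟨⟨a1, a2, a3, a4, a5⟩, ⟨b1, b2, b3, b4⟩, ⟨c1, c2, c3⟩, ⟨d1, d2⟩, f1⟩ := nd
  refine ⟨?_, ?_, ?_, ?_, ?_, ?_⟩
  · rintro rfl
    -- `u3 = x x'`, `u2 = x y`, `(x y) (x x') = x`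
    rw [hu3, hu2] at e1
    have h1 := h.rot e1
    rw [h.inv''] at h1
    exact b3 h1
  · rintro rfl
    rw [h.idem] at hu3
    rw [hu2, hu3, h.inv''] at e1
    exact a2 e1.symm
  · rintro rfl
    rw [h.idem] at hu2
    rw [hu2, hu3, h.inv] at e1
    exact a1 e1.symm
  · rintro rfl
    -- `u3 = y' x' = xy`, `u2 = y' y`
    rw [pe, h.inv''] at hu3
    rw [hu3] at e1
    have h1 := h.rot e1
    rw [h.inv''] at h1
    -- `y = u2`
    rw [hu2] at h1
    exact c1 (h.eq_right h1.symm).symm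
  · rintro rfl
    rw [h.inv'] at hu2
    rw [hu2] at e1
    have h1 := h.eq_left e1
    apply a3
    rw [pe, h.comm x' (m x y), ← hu3]
    exact h1
  · rintro rfl
    rw [h.inv''] at hu3
    rw [h.inv'] at hu2
    rw [hu2, hu3] at e1
    exact a5 e1.symm

/-- a preimage of `(x, x', y)` : third vertex -/
theorem P2.aux3 (h : SQ m) {x x' y : V} (p : P2 m x x' y) {u1 u2 u3 : V} (e1 : m u2 u3 = x)
    (e2 : m u3 u1 = x') (e3 : m u1 u2 = y) :
    u3 ≠ x ∧ u3 ≠ x' ∧ u3 ≠ y ∧ u3 ≠ m x (m x' y) ∧ u3 ≠ m x y ∧ u3 ≠ m x' y := by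
  have hu2 : u2 = m u3 x := by rw [← e1, h.comm u2 u3, h.inv]
  have hu1 : u1 = m u3 x' := by rw [← e2, h.inv]
  have pe := p.eq
  obtain ⟨nd, l1, l2, l3, l4⟩ := p.pq h
  simp only [List.nodup_cons, List.mem_cons, List.not_mem_nil, or_false, not_or,
    List.nodup_nil, not_false_eq_true, and_true] at nd
  obtain ⟨⟨a1, a2, a3, a4, a5⟩, ⟨b1, b2, b3, b4⟩, ⟨c1, c2, c3⟩, ⟨d1, d2⟩, f1⟩ := nd
  refine ⟨?_, ?_, ?_, ?_, ?_, ?_⟩
  · rintro rfl
    -- `u2 = x`, `u1 = x x'`
    rw [h.idem] at hu2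
    rw [hu1, hu2, h.inv''] at e3
    exact b1 e3
  · rintro rfl
    rw [h.idem] at hu1
    rw [hu1, hu2, h.inv] at e3
    exact a2 e3
  · rintro rfl
    -- `u2 = z`, `u1 = z'`
    rw [h.comm u3 x] at hu2
    rw [h.comm u3 x'] at hu1
    rw [hu1, hu2] at e3
    -- `z' z = y` so `y z = z'`
    have h1 := h.rot e3
    rw [h.inv'] at h1
    exact a5 h1
  · rintro rfl
    -- `u2 = z'`, `u1 = z`
    rw [h.inv''] at hu2
    rw [pe, h.inv''] at hu1
    rw [hu1, hu2] at e3
    have h1 := h.rot e3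
    rw [h.inv'] at h1
    exact b3 h1
  · rintro rfl
    -- `u2 = y`
    rw [h.inv''] at hu2
    rw [hu2] at e3
    have h1 := h.eq_right e3
    rw [hu1] at h1
    -- `z x' = y`
    have h2 := h.swap h1
    rw [h.inv'] at h2
    exact a1 h2
  · rintro rfl
    -- `u1 = y`
    rw [h.inv''] at hu1
    rw [hu1] at e3
    have h1 := h.eq_left e3
    rw [hu2] at h1
    have h2 := h.swap h1.symm
    rw [h.inv'] at h2
    exact a1 h2.symm

theorem P2.not_image {B : Finset (Finset V)} (hm : OpOf B m) (hc : ¬ ∃ S, NineCore B S)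
    {x x' y : V} (p : P2 m x x' y) {u1 u2 u3 : V} (e1 : m u2 u3 = x)
    (e2 : m u3 u1 = x') (e3 : m u1 u2 = y) : False := by
  have h := hm.sq
  apply hc
  obtain ⟨p1, p2, p3, p4, p5, p6⟩ := p.aux1 h e1 e2 e3
  obtain ⟨q1, q2, q3, q4, q5, q6⟩ := (p.swap h).aux1 h (u1 := u2) (u2 := u1) (u3 := u3)
    (by rw [h.comm]; exact e2) (by rw [h.comm]; exact e1) (by rw [h.comm]; exact e3)
  obtain ⟨r1, r2, r3, r4, r5, r6⟩ := p.aux3 h e1 e2 e3
  refine core_of_tri hm (p.pq h) (u1 := u1) (u2 := u2) (u3 := u3) ?_ ?_ ?_ ?_ ?_ ?_ ?_ ?_ ?_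
  · rintro rfl
    apply p.xx
    rw [← e1, ← e2, h.comm]
  · rintro rfl
    apply p.xy'
    rw [← e2, ← e3, h.comm]
  · rintro rfl
    apply p.xy
    rw [← e1, ← e3, h.comm]
  · simp only [Finset.mem_insert, Finset.mem_singleton, not_or]
    exact ⟨p1, p2, p3, p4, p5, p6⟩
  · simp only [Finset.mem_insert, Finset.mem_singleton, not_or]
    refine ⟨q2, q1, q3, ?_, q6, q5⟩
    rw [p.eq]
    exact q4
  · simp only [Finset.mem_insert, Finset.mem_singleton, not_or]
    exact ⟨r1, r2, r3, r4, r5, r6⟩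
  · rw [e1]; simp
  · rw [e2]; simp
  · rw [e3]; simp

end Pool.Agent.Hhelper66.Fan
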