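import Mathlib
import Pool.Agent.Hhelper66.Fan.Loc

set_option autoImplicit false
set_option linter.unusedSectionVars false

/-!
Pasch configurations in a Steiner triple system without a nine-point 2-core: the count.
-/

namespace Pool.Agent.Hhelper66.Fan

open Finset Pool.Agent.Hhelper49.Core9

variable {V : Type*} [DecidableEq V] {m : V → V → V}

/-- a prism is a nine-point 2-core -/
theorem noPrism_of {B : Finset (Finset V)} (hm : OpOf B m) (hc : ¬ ∃ S, NineCore B S) :
    NoPrism m := by
  intro a b c x y z x' y' z' e1 e2 e3 e1' e2' e3' hnd0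
  apply hc
  have hnd := hnd0
  simp only [List.nodup_cons, List.mem_cons, List.not_mem_nil, or_false, not_or,
    List.nodup_nil, not_false_eq_true, and_true] at hnd
  obtain ⟨⟨n1, n2, n3, n4, n5, n6, n7, n8⟩, ⟨m1, m2, m3, m4, m5, m6, m7⟩,
    ⟨o1, o2, o3, o4, o5, o6⟩, ⟨p1, p2, p3, p4, p5⟩, ⟨q1, q2, q3, q4⟩, ⟨r1, r2, r3⟩,
    ⟨s1, s2⟩, t1⟩ := hnd
  have b1 : ({x, y, a} : Finset V) ∈ B := by
    have := (hm.mem x y p1).2.2; rwa [e1] at this
  have b2 : ({y, z, b} : Finset V) ∈ B := by
    have := (hm.mem y z q1).2.2; rwa [e2] at this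
  have b3 : ({z, x, c} : Finset V) ∈ B := by
    have := (hm.mem z x (Ne.symm p2)).2.2; rwa [e3] at this
  have b1' : ({x', y', a} : Finset V) ∈ B := by
    have := (hm.mem x' y' s1).2.2; rwa [e1'] at this
  have b2' : ({y', z', b} : Finset V) ∈ B := by
    have := (hm.mem y' z' t1).2.2; rwa [e2'] at this
  have b3' : ({z', x', c} : Finset V) ∈ B := by
    have := (hm.mem z' x' (Ne.symm s2)).2.2; rwa [e3'] at this
  set S : Finset V := {a, b, c, x, y, z, x', y', z'} with hS
  have hsub : ∀ {a b c : V}, a ∈ S → b ∈ S → c ∈ S → ({a, b, c} : Finset V) ⊆ S := by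
    intro a b c ha hb hc t ht
    simp only [Finset.mem_insert, Finset.mem_singleton] at ht
    rcases ht with rfl | rfl | rfl <;> assumption
  have ma : a ∈ S := by simp [hS]
  have mb : b ∈ S := by simp [hS]
  have mc : c ∈ S := by simp [hS]
  have mx : x ∈ S := by simp [hS]
  have my : y ∈ S := by simp [hS]
  have mz : z ∈ S := by simp [hS]
  have mx' : x' ∈ S := by simp [hS]
  have my' : y' ∈ S := by simp [hS]
  have mz' : z' ∈ S := by simp [hS]
  have hne : ∀ {b c : Finset V} (t : V), t ∈ b → t ∉ c → b ≠ c := by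
    intro b c t hb hc e; rw [e] at hb; exact hc hb
  refine ⟨S, ?_, ?_⟩
  · have e : S = [a, b, c, x, y, z, x', y', z'].toFinset := by
      ext t; simp [hS]
    rw [e, List.toFinset_card_of_nodup hnd0]
    rfl
  · intro v hv
    simp only [hS, Finset.mem_insert, Finset.mem_singleton] at hv
    rcases hv with rfl | rfl | rfl | rfl | rfl | rfl | rfl | rfl | rfl
    · refine two_le b1 b1' (hsub mx my ma) (hsub mx' my' ma) (by simp) (by simp) (hne x (by simp) ?_)
      simp only [Finset.mem_insert, Finset.mem_singleton, not_or]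
      exact ⟨p3, p4, Ne.symm n3⟩
    · refine two_le b2 b2' (hsub my mz mb) (hsub my' mz' mb) (by simp) (by simp) (hne y (by simp) ?_)
      simp only [Finset.mem_insert, Finset.mem_singleton, not_or]
      exact ⟨q3, q4, Ne.symm m3⟩
    · refine two_le b3 b3' (hsub mz mx mc) (hsub mz' mx' mc) (by simp) (by simp) (hne x (by simp) ?_)
      simp only [Finset.mem_insert, Finset.mem_singleton, not_or]
      exact ⟨p5, p3, Ne.symm o1⟩
    · refine two_le b1 b3 (hsub mx my ma) (hsub mz mx mc) (by simp) (by simp) (hne y (by simp) ?_)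
      simp only [Finset.mem_insert, Finset.mem_singleton, not_or]
      exact ⟨q1, Ne.symm p1, Ne.symm o2⟩
    · refine two_le b1 b2 (hsub mx my ma) (hsub my mz mb) (by simp) (by simp) (hne x (by simp) ?_)
      simp only [Finset.mem_insert, Finset.mem_singleton, not_or]
      exact ⟨p1, p2, Ne.symm m2⟩
    · refine two_le b2 b3 (hsub my mz mb) (hsub mz mx mc) (by simp) (by simp) (hne y (by simp) ?_)
      simp only [Finset.mem_insert, Finset.mem_singleton, not_or]
      exact ⟨q1, Ne.symm p1, Ne.symm o2⟩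
    · refine two_le b1' b3' (hsub mx' my' ma) (hsub mz' mx' mc) (by simp) (by simp)
        (hne y' (by simp) ?_)
      simp only [Finset.mem_insert, Finset.mem_singleton, not_or]
      exact ⟨t1, Ne.symm s1, Ne.symm o5⟩
    · refine two_le b1' b2' (hsub mx' my' ma) (hsub my' mz' mb) (by simp) (by simp)
        (hne x' (by simp) ?_)
      simp only [Finset.mem_insert, Finset.mem_singleton, not_or]
      exact ⟨s1, s2, Ne.symm m5⟩
    · refine two_le b2' b3' (hsub my' mz' mb) (hsub mz' mx' mc) (by simp) (by simp)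
        (hne y' (by simp) ?_)
      simp only [Finset.mem_insert, Finset.mem_singleton, not_or]
      exact ⟨t1, Ne.symm s1, Ne.symm o5⟩

/-- two triangles with the same midpoints -/
theorem classify (h : SQ m) (hp : NoPrism m) {p q r p' q' r' : V} (hpq : p ≠ q) (hqr : q ≠ r)
    (hrp : r ≠ p) (hnc : m p q ≠ r) (hne : ¬ (p' = p ∧ q' = q ∧ r' = r))
    (e1 : m q' r' = m q r) (e2 : m r' p' = m r p) (e3 : m p' q' = m p q) :
    P1 m p q r ∨ P2 m p q r ∨ P2 m q r p ∨ P2 m r p q := by
  have hAB : m q r ≠ m r p := by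
    intro e; rw [h.comm q r] at e; exact hpq (h.cancel e).symm
  have hBC : m r p ≠ m p q := by
    intro e; rw [h.comm r p] at e; exact hqr (h.cancel e).symm
  have hCA : m p q ≠ m q r := by
    intro e; rw [h.comm p q] at e; exact hrp (h.cancel e).symm
  have hpp : p ≠ p' := by
    rintro rfl
    apply hne
    have hq : q' = q := h.cancel e3
    subst hq
    exact ⟨rfl, rfl, h.cancel e1⟩
  by_cases hcol : p' = m q' r'
  · -- the second triple is collinear
    left
    refine ⟨hpq, hqr, hrp, hnc, ?_⟩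
    have hq : q' = m r' p' := by rw [hcol, h.comm q' r', h.inv]
    rw [← e1, ← e2, ← e3, ← hcol, ← hq]
  · have hx : m (m r p) (m (m q r) (m (m p q) p)) = p := by
      rw [h.inv'', h.comm q r, h.inv', h.inv'']
    have hx' : m (m r p) (m (m q r) (m (m p q) p')) = p' := by
      rw [← e1, ← e2, ← e3, h.inv'', h.comm q' r', h.inv', h.inv'']
    have hxb : p ≠ m q r := by
      intro e
      apply hnc
      rw [e, h.comm q r, h.inv']
    have hxb' : p' ≠ m q r := by
      rw [← e1]; exact hcol
    rcases h.tri hp hCA hAB hBC.symm hx hx' hxb hxb' hpp with e | e | e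
    · -- `p' = q`
      right; left
      rw [h.inv''] at e
      subst e
      have hq : q' = p := by
        have := h.swap e3
        rw [h.comm p p', h.inv] at this
        exact this.symm
      subst hq
      refine ⟨hpq, hrp.symm, hqr, hnc, ?_⟩
      rw [← e1, h.inv, h.comm q' r, ← e2, h.comm r' p', h.inv]
    · -- `p' = r`
      right; right; right
      rw [h.inv'] at e
      subst e
      have hr : r' = p := by
        have := h.rot e2
        have h2 := h.swap e2
        rw [h.comm r' p'] at e2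
        have h3 := h.swap e2
        rw [h.inv] at h3
        exact h3.symm
      subst hr
      refine ⟨hrp, hqr.symm, hpq, ?_, ?_⟩
      · intro e
        apply hnc
        rw [← e, h.comm p' r', h.inv]
      · rw [← e3, h.inv, h.comm p' q, ← e1, h.comm q' r', h.inv]
    · -- `q' = r`
      right; right; left
      rw [h.inv'] at e
      have hq : q' = r := by
        have := h.swap e3
        rw [e, h.inv''] at this
        exact this.symm
      subst hq
      have hr : r' = q := by
        have h3 := h.swap e1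
        rw [h.comm q q', h.inv] at h3
        exact h3.symm
      subst hr
      refine ⟨hqr, hpq.symm, hrp, ?_, ?_⟩
      · intro e
        apply hnc
        rw [← e, h.inv'']
      · rw [← e2, h.inv, h.comm r' p, ← e3, h.comm p' q', h.inv]

/-- the medial map -/
def o (m : V → V → V) (t : V × V × V) : V × V × V :=
  (m t.2.1 t.2.2, m t.2.2 t.1, m t.1 t.2.1)

theorem deg (h : SQ m) {t t' : V × V × V}
    (hd : t.1 = t.2.1 ∨ t.2.1 = t.2.2 ∨ t.2.2 = t.1) (e : o m t' = o m t) : t' = t := by
  obtain ⟨p, q, r⟩ := t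
  obtain ⟨p', q', r'⟩ := t'
  simp only [o, Prod.mk.injEq] at e hd ⊢
  obtain ⟨e1, e2, e3⟩ := e
  rcases hd with rfl | rfl | rfl
  · rw [h.idem] at e3
    have h1 : m q' r' = m r' p' := by rw [e1, e2, h.comm]
    rw [h.comm q' r'] at h1
    have h2 : q' = p' := h.cancel h1
    subst h2
    rw [h.idem] at e3
    subst e3
    exact ⟨rfl, rfl, h.cancel e1⟩
  · rw [h.idem] at e1
    have h1 : m r' p' = m p' q' := by rw [e2, e3, h.comm]
    rw [h.comm r' p'] at h1
    have h2 : r' = q' := h.cancel h1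
    subst h2
    rw [h.idem] at e1
    subst e1
    exact ⟨h.cancel e2, rfl, rfl⟩
  · rw [h.idem] at e2
    have h1 : m p' q' = m q' r' := by rw [e3, e1, h.comm]
    rw [h.comm p' q'] at h1
    have h2 : p' = r' := h.cancel h1
    subst h2
    rw [h.idem] at e2
    subst e2
    exact ⟨rfl, h.cancel e3, rfl⟩

theorem col (h : SQ m) {t : V × V × V} (hc : m t.1 t.2.1 = t.2.2) : o m t = t := by
  obtain ⟨p, q, r⟩ := t
  simp only [o, Prod.mk.injEq] at hc ⊢
  subst hc
  refine ⟨?_, ?_, rfl⟩
  · rw [h.comm p q, h.inv]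
  · rw [h.inv'']

variable [Fintype V]

/-- the bad triples -/
def Bad (m : V → V → V) (t : V × V × V) : Prop :=
  t.1 ≠ t.2.1 ∧ t.2.1 ≠ t.2.2 ∧ t.2.2 ≠ t.1 ∧ m t.1 t.2.1 ≠ t.2.2 ∧
    ∃ t', t' ≠ t ∧ o m t' = o m t

theorem Bad.cls (h : SQ m) (hp : NoPrism m) {t : V × V × V} (hb : Bad m t) :
    P1 m t.1 t.2.1 t.2.2 ∨ P2 m t.1 t.2.1 t.2.2 ∨ P2 m t.2.1 t.2.2 t.1 ∨ P2 m t.2.2 t.1 t.2.1 := by
  obtain ⟨h1, h2, h3, h4, ⟨p', q', r'⟩, h5, h6⟩ := hb
  obtain ⟨p, q, r⟩ := t
  simp only [o, Prod.mk.injEq, ne_eq] at h1 h2 h3 h4 h5 h6 ⊢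
  exact classify h hp h1 h2 h3 h4 h5 h6.1 h6.2.1 h6.2.2

theorem Bad.not_image {B : Finset (Finset V)} (hm : OpOf B m) (hc : ¬ ∃ S, NineCore B S)
    {t : V × V × V} (hb : Bad m t) (u : V × V × V) : o m u ≠ t := by
  intro e
  obtain ⟨p, q, r⟩ := t
  obtain ⟨u1, u2, u3⟩ := u
  have hcl := hb.cls hm.sq (noPrism_of hm hc)
  simp only [o, Prod.mk.injEq] at e hcl
  obtain ⟨e1, e2, e3⟩ := e
  rcases hcl with k | k | k | k
  · exact k.not_image hm hc e1 e2 e3
  · exact k.not_image hm hc e1 e2 e3
  · exact k.not_image hm hc e2 e3 e1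
  · exact k.not_image hm hc e3 e1 e2

/-- the count -/
theorem count {B : Finset (Finset V)} (hm : OpOf B m) (hc : ¬ ∃ S, NineCore B S) :
    (∀ t t' : V × V × V, t ≠ t' → o m t = o m t' → o m (o m t) = o m t) ∧
    (∀ w : V × V × V, (∀ t, o m t ≠ w) → Bad m w) := by
  classical
  have h := hm.sq
  -- a section of the medial map
  have hs : ∀ w : V × V × V, ∃ t, ((∃ u, o m u = w) → o m t = w) ∧ (o m w = w → t = w) := by
    intro w
    by_cases h1 : o m w = w
    · exact ⟨w, fun _ => h1, fun _ => rfl⟩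
    · by_cases h2 : ∃ u, o m u = w
      · obtain ⟨u, hu⟩ := h2
        exact ⟨u, fun _ => hu, fun h3 => absurd h3 h1⟩
      · exact ⟨w, fun h3 => absurd h3 h2, fun _ => rfl⟩
  choose s hs1 hs2 using hs
  set I : Finset (V × V × V) := univ.image (o m) with hI
  set R : Finset (V × V × V) := I.image s with hR
  have hmem : ∀ w, w ∈ I ↔ ∃ u, o m u = w := by
    intro w; simp [hI]
  have hcard : R.card = I.card := by
    apply Finset.card_image_of_injOn
    intro a ha b hb hab
    have ha' := hs1 a ((hmem a).1 ha)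
    have hb' := hs1 b ((hmem b).1 hb)
    have hab' : s a = s b := hab
    rw [← ha', ← hb', hab']
  have hRB : ∀ t, t ∉ R → Bad m t := by
    intro t ht
    have h0 : o m (s (o m t)) = o m t := hs1 (o m t) ⟨t, rfl⟩
    have h1 : s (o m t) ≠ t := by
      intro e
      apply ht
      rw [hR, Finset.mem_image]
      exact ⟨o m t, (hmem _).2 ⟨t, rfl⟩, e⟩
    refine ⟨?_, ?_, ?_, ?_, s (o m t), h1, h0⟩
    · intro e; exact h1 (deg h (Or.inl e) h0)
    · intro e; exact h1 (deg h (Or.inr (Or.inl e)) h0)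
    · intro e; exact h1 (deg h (Or.inr (Or.inr e)) h0)
    · intro e
      have h2 := col h e
      apply h1
      rw [h2]
      exact hs2 t h2
  have hBI : ∀ t, Bad m t → t ∉ I := by
    intro t ht hti
    obtain ⟨u, hu⟩ := (hmem t).1 hti
    exact ht.not_image hm hc u hu
  have hsub : Rᶜ ⊆ Iᶜ := by
    intro t ht
    rw [Finset.mem_compl] at ht ⊢
    exact hBI t (hRB t ht)
  have heq : Rᶜ = Iᶜ := by
    apply Finset.eq_of_subset_of_card_le hsub
    rw [Finset.card_compl, Finset.card_compl, hcard]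
  have hIR : ∀ t, t ∉ I → t ∉ R := by
    intro t ht
    have : t ∈ Rᶜ := by
      rw [heq]; exact Finset.mem_compl.2 ht
    exact Finset.mem_compl.1 this
  refine ⟨?_, ?_⟩
  · intro t t' hne e
    by_contra hcon
    set s0 := s (o m t) with hs0
    have h0 : o m s0 = o m t := hs1 (o m t) ⟨t, rfl⟩
    have hs0R : s0 ∈ R := by
      rw [hR, Finset.mem_image]
      exact ⟨o m t, (hmem _).2 ⟨t, rfl⟩, rfl⟩
    have hnd : ¬ (s0.1 = s0.2.1 ∨ s0.2.1 = s0.2.2 ∨ s0.2.2 = s0.1) := by
      intro hd
      apply hne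
      rw [deg h hd h0.symm, deg h hd (e.symm.trans h0.symm)]
    have hbad : Bad m s0 := by
      refine ⟨fun e => hnd (Or.inl e), fun e => hnd (Or.inr (Or.inl e)),
        fun e => hnd (Or.inr (Or.inr e)), ?_, ?_⟩
      · intro e2
        have h2 := col h e2
        apply hcon
        rw [← h0, h2, h2]
      · by_cases h3 : t = s0
        · exact ⟨t', fun h4 => hne (h3.trans h4.symm), by rw [← e, h0]⟩
        · exact ⟨t, h3, h0.symm⟩
    exact hIR s0 (hBI s0 hbad) hs0R
  · intro w hw
    apply hRB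
    apply hIR
    intro hwI
    obtain ⟨u, hu⟩ := (hmem w).1 hwI
    exact hw u hu

end Pool.Agent.Hhelper66.Fan
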