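import Mathlib
import Pool.Agent.Hhelper66.Fan.Cnt

set_option autoImplicit false
set_option linter.unusedSectionVars false

/-!
Pasch configurations in a Steiner triple system without a nine-point 2-core: conclusion.
-/

namespace Pool.Agent.Hhelper66.Fan

open Finset Pool.Agent.Hhelper49.Core9

variable {V : Type*} [DecidableEq V] {m : V → V → V}

/-- exchange of two pairs of opposite points -/
theorem PQ.swap23 {x x' y y' z z' : V} (h : SQ m) (q : PQ m x x' y y' z z') :
    PQ m x x' z z' y y' := by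
  obtain ⟨nd, l1, l2, l3, l4⟩ := q
  refine ⟨?_, ?_, ?_, ?_, ?_⟩
  · simp only [List.nodup_cons, List.mem_cons, List.not_mem_nil, or_false, not_or,
      List.nodup_nil, not_false_eq_true, and_true] at nd ⊢
    obtain ⟨⟨a1, a2, a3, a4, a5⟩, ⟨b1, b2, b3, b4⟩, ⟨c1, c2, c3⟩, ⟨d1, d2⟩, e1⟩ := nd
    exact ⟨⟨a1, a4, a5, a2, a3⟩, ⟨b3, b4, b1, b2⟩, ⟨e1, Ne.symm c2, Ne.symm d1⟩,
      ⟨Ne.symm c3, Ne.symm d2⟩, c1⟩
  · exact h.swap l1
  · exact h.swap l2
  · exact h.swap l4
  · exact h.swap l3

/-- a set closed under the operation is a subsystem -/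
theorem subsystem_of_closed {B : Finset (Finset V)} (hB : IsSTS B) (hm : OpOf B m) {W : Finset V}
    (hW : ∀ a ∈ W, ∀ b ∈ W, m a b ∈ W) : IsSubsystem B W := by
  intro b hb h2
  obtain ⟨p, hp, q, hq, hpq⟩ := Finset.one_lt_card.1 h2
  rw [Finset.mem_inter] at hp hq
  obtain ⟨c, _, hu⟩ := hB.2 p q hpq
  have e1 := hu b ⟨hb, hp.1, hq.1⟩
  have e2 := hu _ ⟨(hm.mem p q hpq).2.2, by simp, by simp⟩
  rw [e1, ← e2]
  intro t ht
  simp only [Finset.mem_insert, Finset.mem_singleton] at ht
  rcases ht with rfl | rfl | rfl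
  · exact hp.2
  · exact hq.2
  · exact hW _ hp.2 _ hq.2

variable [Fintype V]

/-- two diagonals of a Pasch configuration meet -/
theorem diag_eq {B : Finset (Finset V)} (hm : OpOf B m) (hc : ¬ ∃ S, NineCore B S)
    {x x' y y' z z' : V} (q : PQ m x x' y y' z z') : m x x' = m z z' := by
  have h := hm.sq
  obtain ⟨nd, l1, l2, l3, l4⟩ := q
  simp only [List.nodup_cons, List.mem_cons, List.not_mem_nil, or_false, not_or,
    List.nodup_nil, not_false_eq_true, and_true] at nd
  have h1 := (count hm hc).1 (x, x', y) (x', x, y') (by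
    intro e
    simp only [Prod.mk.injEq] at e
    exact nd.1.1 e.1) (by
    simp only [o, Prod.mk.injEq]
    refine ⟨by rw [l3, l2], by rw [h.comm y x, l1, h.comm y' x', l4], h.comm _ _⟩)
  simp only [o, Prod.mk.injEq] at h1
  rw [l3, h.comm y x, l1] at h1
  -- `m z (m x x') = z'`
  exact (h.swap h1.1).symm

theorem fano_of_pq {B : Finset (Finset V)} (hB : IsSTS B) (hm : OpOf B m)
    (hc : ¬ ∃ S, NineCore B S) {x x' y y' z z' : V} (q : PQ m x x' y y' z z') :
    ∃ W, IsSubsystem B W ∧ W.card = 7 ∧ ({x, x', y, y', z, z'} : Finset V) ⊆ W := by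
  have h := hm.sq
  have hd1 := diag_eq hm hc q
  have hd2 := diag_eq hm hc (q.swap23 h)
  obtain ⟨nd, l1, l2, l3, l4⟩ := q
  set f := m x x' with hf
  have fx : m x f = x' := by rw [hf, h.inv]
  have fx' : m x' f = x := by rw [hf, h.comm x x', h.inv]
  have fy : m y f = y' := by rw [hd2, h.inv]
  have fy' : m y' f = y := by rw [hd2, h.comm y y', h.inv]
  have fz : m z f = z' := by rw [hd1, h.inv]
  have fz' : m z' f = z := by rw [hd1, h.comm z z', h.inv]
  have nd0 := nd
  simp only [List.nodup_cons, List.mem_cons, List.not_mem_nil, or_false, not_or,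
    List.nodup_nil, not_false_eq_true, and_true] at nd
  obtain ⟨⟨a1, a2, a3, a4, a5⟩, ⟨b1, b2, b3, b4⟩, ⟨c1, c2, c3⟩, ⟨d1, d2⟩, e1⟩ := nd
  have f1 : f ≠ x := fun e => a1 (h.eq_left e)
  have f2 : f ≠ x' := fun e => a1 (h.eq_right e)
  have f3 : f ≠ y := by
    intro e; rw [e, h.idem] at fy; exact c1 fy
  have f4 : f ≠ y' := by
    intro e; rw [e, h.idem] at fy'; exact c1 fy'.symm
  have f5 : f ≠ z := by
    intro e; rw [e, h.idem] at fz; exact e1 fz
  have f6 : f ≠ z' := by
    intro e; rw [e, h.idem] at fz'; exact e1 fz'.symm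
  refine ⟨{x, x', y, y', z, z', f}, subsystem_of_closed hB hm ?_, ?_, ?_⟩
  · have xz := h.swap l1
    have yz := h.rot l1
    have xz' := h.swap l2
    have yz' := h.rot l2
    have xz3 := h.swap l3
    have yz3 := h.rot l3
    have xz4 := h.swap l4
    have yz4 := h.rot l4
    have ll1 := (h.comm y x).trans l1
    have ll2 := (h.comm y' x).trans l2
    have ll3 := (h.comm y x').trans l3
    have ll4 := (h.comm y' x').trans l4
    have g1 := (h.comm z x).trans xz
    have g2 := (h.comm z y).trans yz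
    have g3 := (h.comm z' x).trans xz'
    have g4 := (h.comm z' y').trans yz'
    have g5 := (h.comm z' x').trans xz3
    have g6 := (h.comm z' y).trans yz3
    have g7 := (h.comm z x').trans xz4
    have g8 := (h.comm z y').trans yz4
    have k1 := (h.comm f x).trans fx
    have k2 := (h.comm f x').trans fx'
    have k3 := (h.comm f y).trans fy
    have k4 := (h.comm f y').trans fy'
    have k5 := (h.comm f z).trans fz
    have k6 := (h.comm f z').trans fz'
    have s1 : m x' x = f := (h.comm x' x)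
    have s2 : m y' y = f := (h.comm y' y).trans hd2.symm
    have s3 : m z' z = f := (h.comm z' z).trans hd1.symm
    have s1' : m x x' = f := rfl
    have s2' : m y y' = f := hd2.symm
    have s3' : m z z' = f := hd1.symm
    intro a ha b hb
    have key : ∀ a ∈ [x, x', y, y', z, z', f], ∀ b ∈ [x, x', y, y', z, z', f],
        m a b ∈ [x, x', y, y', z, z', f] := by
      clear_value f
      simp only [forall_eq_or_imp, forall_eq, List.not_mem_nil,
        h.idem, l1, l2, l3, l4, xz, yz, xz', yz', xz3, yz3, xz4, yz4, ll1, ll2, ll3,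
        ll4, g1, g2, g3, g4, g5, g6, g7, g8, k1, k2, k3, k4, k5, k6, s1, s2, s3, s1', s2', s3',
        fx, fx', fy, fy', fz, fz', List.mem_cons, or_false, true_or, or_true, and_self]
    have ha' : a ∈ [x, x', y, y', z, z', f] := by
      simpa using ha
    have hb' : b ∈ [x, x', y, y', z, z', f] := by
      simpa using hb
    have := key a ha' b hb'
    simpa using this
  · have hnd : [x, x', y, y', z, z', f].Nodup := by
      simp only [List.nodup_cons, List.mem_cons, List.not_mem_nil, or_false, not_or,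
        List.nodup_nil, not_false_eq_true, and_true]
      exact ⟨⟨a1, a2, a3, a4, a5, Ne.symm f1⟩, ⟨b1, b2, b3, b4, Ne.symm f2⟩,
        ⟨c1, c2, c3, Ne.symm f3⟩, ⟨d1, d2, Ne.symm f4⟩, ⟨e1, Ne.symm f5⟩, Ne.symm f6⟩
    have e : ({x, x', y, y', z, z', f} : Finset V) = [x, x', y, y', z, z', f].toFinset := by
      ext t; simp
    rw [e, List.toFinset_card_of_nodup hnd]
    rfl
  · intro t ht
    simp only [Finset.mem_insert, Finset.mem_singleton] at ht ⊢
    tauto

/-- a bad triple lies in a Fano plane -/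
theorem Bad.fano {B : Finset (Finset V)} (hB : IsSTS B) (hm : OpOf B m)
    (hc : ¬ ∃ S, NineCore B S) {t : V × V × V} (hb : Bad m t) :
    ∃ W, IsSubsystem B W ∧ W.card = 7 ∧ ({t.1, t.2.1, t.2.2} : Finset V) ⊆ W := by
  have h := hm.sq
  rcases hb.cls h (noPrism_of hm hc) with k | k | k | k
  · obtain ⟨W, h1, h2, h3⟩ := fano_of_pq hB hm hc (k.pq h)
    refine ⟨W, h1, h2, fun u hu => h3 ?_⟩
    simp only [Finset.mem_insert, Finset.mem_singleton] at hu ⊢
    tauto
  · obtain ⟨W, h1, h2, h3⟩ := fano_of_pq hB hm hc (k.pq h)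
    refine ⟨W, h1, h2, fun u hu => h3 ?_⟩
    simp only [Finset.mem_insert, Finset.mem_singleton] at hu ⊢
    tauto
  · obtain ⟨W, h1, h2, h3⟩ := fano_of_pq hB hm hc (k.pq h)
    refine ⟨W, h1, h2, fun u hu => h3 ?_⟩
    simp only [Finset.mem_insert, Finset.mem_singleton] at hu ⊢
    tauto
  · obtain ⟨W, h1, h2, h3⟩ := fano_of_pq hB hm hc (k.pq h)
    refine ⟨W, h1, h2, fun u hu => h3 ?_⟩
    simp only [Finset.mem_insert, Finset.mem_singleton] at hu ⊢
    tauto

end Pool.Agent.Hhelper66.Fan
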